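import Pool.Agent.Run7.h61.TW.Fam
import Pool.Agent.Run7.h876.MM.Part2

/-!
# Selberg's sums
-/

set_option autoImplicit false

namespace Run7.h61.SO

open NumberField IsDedekindDomain Polynomial
open Run7.h876.MM (nv SZ)
open Run7.h876.HY (GoodAt frobTrace)

open Classical in
/-- Selberg's sum `∑_{Nv ≤ x} w(v) |a(v)|² / Nv` over the good places for the coefficients
`a(v) = tr(Frob_v) / √Nv` of the L-function of `y² = f(x)`, with the weights `w`. -/
noncomputable def selbergSum {K : Type} [Field K] [NumberField K] (f : (𝓞 K)[X]) (w : HeightOneSpectrum (𝓞 K) → ℝ) (x : ℕ) : ℝ :=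
  ∑ v ∈ SZ K x, if GoodAt f v then w v * ((frobTrace f v 1 : ℝ) / Real.sqrt (nv v)) ^ 2 / nv v else 0

end Run7.h61.SO
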