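import Pool.Agent.Run7.h61.SO.Sup
import Pool.Agent.Run7.h61.SO.Defs
import Pool.Agent.Run7.h61.TW.AppA
import Pool.Agent.Run7.h61.LD.Half

/-!
# Selberg's orthogonality for almost all members of a family
-/

set_option autoImplicit false
set_option linter.unusedSectionVars false

namespace Run7.h61.SO

open NumberField IsDedekindDomain Finset Filter Topology Polynomial
open Pool.Agent.W401.Cheb (GK IsFrob IsInert)
open Run7.h876.MM (nv kv two_le_nv nv_pos avg instFieldKv instFintypeKv instDecKv SZ mem_SZ card_SZ)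
open Run7.h876.EN Run7.h876.PW
open Run7.h876.HY (GoodAt frobTrace)
open Run7.h61.TW
open Run7.h9.BS (VZ cv cv_pos prop inv_nv_le)
open Run7.h9.BS.LocalData (prop_nonneg prop_mono)
open Run7.h9.TW (LL VZ_mert)

section
variable {K : Type} [Field K] [NumberField K] {J : Type} [Fintype J] [DecidableEq J] (𝓕 : TFam K J)

theorem exists_r : ∃ (R : ℝ) (r : HeightOneSpectrum (𝓞 K) → ℕ → ℝ), 0 ≤ R ∧ (∀ v m, |r v m| ≤ R) ∧
    {v | ¬ ∀ σ, IsFrob v σ → r v 0 = 𝓕.trV σ}.Finite := by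
  classical
  obtain ⟨S, hS⟩ : ∃ S : Set (AlgebraicClosure K), S = Set.range (fun i => ((𝓕.x i : OB K) : AlgebraicClosure K)) ∪
      Set.range (fun i => ((𝓕.y i : OB K) : AlgebraicClosure K)) := ⟨_, rfl⟩
  have hfinS : Finite S := by
    rw [hS]
    exact (Set.finite_range _).union (Set.finite_range _)
  obtain ⟨F, hF⟩ : ∃ F, F = FiniteGaloisIntermediateField.adjoin K S := ⟨_, rfl⟩
  have hsub : S ⊆ (F.toIntermediateField : Set (AlgebraicClosure K)) := by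
    rw [hF]
    exact FiniteGaloisIntermediateField.subset_adjoin K S
  have hx : ∀ i, ((𝓕.x i : OB K) : AlgebraicClosure K) ∈ F.toIntermediateField ∧ ((𝓕.y i : OB K) : AlgebraicClosure K) ∈ F.toIntermediateField := by
    intro i
    exact ⟨hsub (by rw [hS]; exact Or.inl ⟨i, rfl⟩), hsub (by rw [hS]; exact Or.inr ⟨i, rfl⟩)⟩
  obtain ⟨a, ⟨B, hB⟩, ha⟩ := exists_trace F.toIntermediateField (fun g => (𝓕.chV F.toIntermediateField g : ℂ)) (fun g h => by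
    rw [chV_conj F.toIntermediateField 𝓕 hx])
  refine ⟨|B|, fun v m => (a v m).re, abs_nonneg B, fun v m => ((Complex.abs_re_le_norm _).trans (hB v m)).trans (le_abs_self B), ?_⟩
  refine ha.subset fun v hv hc => hv fun σ hσ => ?_
  have h1 := hc σ hσ 0
  beta_reduce at h1
  rw [zero_add, pow_one, chV_res F.toIntermediateField 𝓕 hx] at h1
  show (a v 0).re = 𝓕.trV σ
  rw [h1]
  exact Complex.intCast_re _

theorem DV_eq {R : ℝ} (hR : 0 ≤ R) {r : HeightOneSpectrum (𝓞 K) → ℕ → ℝ} (hr : ∀ v m, |r v m| ≤ R)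
    (hfin : {v | ¬ ∀ σ, IsFrob v σ → r v 0 = 𝓕.trV σ}.Finite) (w : HeightOneSpectrum (𝓞 K) → ℝ) (x : ℕ) (t : Fin 2 ⊕ J → 𝓞 K) :
    DV (𝓕.data hR hr hfin) w x t = selbergSum (𝓕.member t) w x - ∑ v ∈ SZ K x, w v / nv v := by
  classical
  unfold DV selbergSum
  rw [← Finset.sum_sub_distrib]
  refine Finset.sum_congr rfl fun v _ => ?_
  have hn := nv_pos v
  have ha : (𝓕.data hR hr hfin).a = 𝓕.av := rfl
  unfold XX
  rw [ha]
  split_ifs with h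
  · have e := 𝓕.frobTrace_eq h 0
    rw [zero_add] at e
    rw [e, div_pow, Real.sq_sqrt hn.le]
    ring
  · rw [𝓕.av_bad h]
    ring

/-! ### Mertens' theorem -/

variable (K) in
theorem inv_mert : ∃ C : ℝ, 0 ≤ C ∧ ∀ x : ℕ, 3 ≤ x → |∑ v ∈ SZ K x, (1 : ℝ) / nv v - LL x| ≤ C := by
  obtain ⟨C, hC0, hC⟩ := VZ_mert K
  have hs := Pool.Agent.H921R2.TatePole.nm_summable (K := K) (x := 2) (by norm_num)
  obtain ⟨S, hS⟩ : ∃ S : ℝ, S = ∑' v : HeightOneSpectrum (𝓞 K), (nv v : ℝ) ^ (-(2 : ℝ)) := ⟨_, rfl⟩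
  have hS0 : 0 ≤ S := by rw [hS]; exact tsum_nonneg fun v => by have := (nv_pos v).le; positivity
  refine ⟨C + 2 * S, by positivity, fun x hx => ?_⟩
  have h1 := hC x hx
  have h2 : ∀ v : HeightOneSpectrum (𝓞 K), cv v - 1 / nv v ≤ 2 * (nv v : ℝ) ^ (-(2 : ℝ)) := by
    intro v
    obtain ⟨h3, h4⟩ := inv_nv_le v
    have hn := nv_pos v
    have h5 : 1 - (1 - 1 / (nv v : ℝ))⁻¹ ≤ Real.log (1 - 1 / (nv v : ℝ)) := Real.one_sub_inv_le_log_of_pos (by linarith)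
    obtain ⟨y, hy⟩ : ∃ y : ℝ, y = 1 / nv v := ⟨_, rfl⟩
    have e : (nv v : ℝ) ^ (-(2 : ℝ)) = y ^ 2 := by
      rw [hy, Real.rpow_neg hn.le, Real.rpow_two, div_pow, one_pow, one_div]
    rw [e]
    unfold Run7.h9.BS.cv
    rw [← hy] at h3 h4 h5 ⊢
    have h6 : (1 - y)⁻¹ ≤ 1 + y + 2 * y ^ 2 := by
      rw [inv_le_iff_one_le_mul₀ (by linarith)]
      nlinarith [mul_nonneg (sq_nonneg y) (show (0 : ℝ) ≤ 1 - 2 * y by linarith)]
    linarith
  have h3 : ∑ v ∈ SZ K x, (cv v - 1 / nv v) ≤ 2 * S := by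
    refine (Finset.sum_le_sum fun v _ => h2 v).trans ?_
    rw [← Finset.mul_sum]
    refine mul_le_mul_of_nonneg_left ?_ (by norm_num)
    rw [hS]
    exact hs.sum_le_tsum _ fun v _ => by have := (nv_pos v).le; positivity
  have h4 : 0 ≤ ∑ v ∈ SZ K x, (cv v - 1 / nv v) := Finset.sum_nonneg fun v _ => by linarith [inv_le_cv v]
  rw [Finset.sum_sub_distrib] at h3 h4
  have h5 : VZ K x = ∑ v ∈ SZ K x, cv v := rfl
  rw [h5] at h1
  rw [abs_le] at h1 ⊢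
  constructor
  · linarith [h1.1]
  · linarith [h1.2]

variable {ι : Type} [Fintype ι] [DecidableEq ι] (ω : Module.Basis ι ℤ (𝓞 K))

theorem weights : ∃ (C : ℝ) (Z₀ : ℕ), 0 ≤ C ∧ ∀ Z : ℕ, Z₀ ≤ Z → ∀ H : Fin 2 ⊕ J → ℕ, (∀ j, Z ^ 4 ≤ H j) →
    ∀ w : HeightOneSpectrum (𝓞 K) → ℝ, (∀ v, |w v| ≤ 1) → ∀ ε : ℝ, 0 < ε → ε ≤ 1 →
      1 - ε ≤ prop ω H 𝓕.smooth (fun t => ∀ x : ℕ, x ≤ Z → |selbergSum (𝓕.member t) w x - ∑ v ∈ SZ K x, w v / nv v| ≤ C / ε) := by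
  classical
  obtain ⟨R, r, hR, hr, hfin⟩ := exists_r 𝓕
  obtain ⟨C, Z₀, hC, h⟩ := sup_small (𝓕.data hR hr hfin) ω (𝓕.thin_smooth ω)
  obtain ⟨Z₁, hZ₁⟩ := nonempty_thick ω (𝓕.thin_smooth ω)
  refine ⟨C, max Z₀ (max Z₁ 1), hC, fun Z hZ H hH w hw ε hε hε1 => ?_⟩
  have h1 := h Z ((le_max_left _ _).trans hZ) H hH w hw ε hε hε1
  simp only [DV_eq] at h1
  have hne := hZ₁ Z (((le_max_left _ _).trans (le_max_right _ _)).trans hZ) H (fun j =>
    (Nat.le_self_pow (by norm_num) Z).trans (hH j))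
  have h2 := Run7.h61.LD.prop_compl ω H hne (fun t => ∀ x : ℕ, x ≤ Z → |selbergSum (𝓕.member t) w x - ∑ v ∈ SZ K x, w v / nv v| ≤ C / ε)
  linarith

theorem loglog : ∃ (C : ℝ) (Z₀ : ℕ), 0 ≤ C ∧ ∀ Z : ℕ, Z₀ ≤ Z → ∀ H : Fin 2 ⊕ J → ℕ, (∀ j, Z ^ 4 ≤ H j) → ∀ ε : ℝ, 0 < ε → ε ≤ 1 →
      1 - ε ≤ prop ω H 𝓕.smooth (fun t => ∀ x : ℕ, 3 ≤ x → x ≤ Z →
        |selbergSum (𝓕.member t) (fun _ => 1) x - Real.log (Real.log x)| ≤ C / ε) := by
  obtain ⟨C, Z₀, hC, h⟩ := weights 𝓕 ω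
  obtain ⟨C₁, hC₁, h1⟩ := inv_mert K
  refine ⟨C + C₁, Z₀, by positivity, fun Z hZ H hH ε hε hε1 => (h Z hZ H hH (fun _ => 1) (fun _ => by simp) ε hε hε1).trans ?_⟩
  refine prop_mono ω H fun t ht x hx3 hx => ?_
  have h2 := ht x hx
  have h3 := h1 x hx3
  have e : selbergSum (𝓕.member t) (fun _ => 1) x - Real.log (Real.log x) =
      (selbergSum (𝓕.member t) (fun _ => 1) x - ∑ v ∈ SZ K x, (1 : ℝ) / nv v) + (∑ v ∈ SZ K x, (1 : ℝ) / nv v - LL x) := by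
    unfold Run7.h9.TW.LL
    ring
  rw [e, add_div]
  have h4 : C₁ ≤ C₁ / ε := by
    rw [le_div_iff₀ hε]
    exact mul_le_of_le_one_right hC₁ hε1
  exact (abs_add_le _ _).trans (add_le_add h2 (h3.trans h4))

end

/-- The family of all monic polynomials of degree `2 g + 3`. -/
noncomputable def oddFam (K : Type) [Field K] [NumberField K] (g : ℕ) : TFam K (Fin (2 * g + 1)) where
  F₀ := X ^ (2 * g + 3)
  m := 1
  P j := X ^ ((j : ℕ) + 2)
  r := 0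
  x := Fin.elim0
  y := Fin.elim0
  monic := monic_X_pow _
  odd := by rw [natDegree_X_pow]; exact ⟨g + 1, by ring⟩
  deg := by rw [natDegree_X_pow]; omega
  deg_P := fun j => by
    rw [natDegree_X_pow, natDegree_X_pow]
    have := j.2
    omega
  split := by simp
  x_inj := fun i => i.elim0
  y_ne := fun i => i.elim0
  on_curve := fun i => i.elim0

theorem oddFam_member (K : Type) [Field K] [NumberField K] (g : ℕ) : ∃ 𝓕 : TFam K (Fin (2 * g + 1)), ∀ t : Fin 2 ⊕ Fin (2 * g + 1) → 𝓞 K,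
    𝓕.member t = X ^ (2 * g + 3) + (C (t (Sum.inl 0)) * X + C (t (Sum.inl 1)) + ∑ j : Fin (2 * g + 1), C (t (Sum.inr j)) * X ^ ((j : ℕ) + 2)) := by
  refine ⟨oddFam K g, fun t => ?_⟩
  unfold TFam.member
  have h : (oddFam K g).m = 1 := rfl
  have h' : (oddFam K g).F₀ = X ^ (2 * g + 3) := rfl
  rw [h, h', one_mul]
  rfl

end Run7.h61.SO
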