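import Pool.Agent.Run7.h61.SO.Var

/-!
# All partial sums at once
-/

set_option autoImplicit false
set_option linter.unusedSectionVars false

namespace Run7.h61.SO

open NumberField IsDedekindDomain Finset Filter Topology
open Run7.h876.MM (nv kv two_le_nv nv_pos avg instFieldKv instFintypeKv instDecKv SZ mem_SZ card_SZ)
open Run7.h876.EN Run7.h876.PW
open Run7.h61.TW
open Run7.h9.BS (VZ cv cv_pos prop inv_nv_le)
open Run7.h9.TW (LL VZ_mert)

section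
variable {K : Type} [Field K] [NumberField K] {J : Type} [Fintype J] [DecidableEq J] (𝓓 : TD K J)
variable {ι : Type} [Fintype ι] [DecidableEq ι] (ω : Module.Basis ι ℤ (𝓞 K))

theorem blk_second : ∃ C : ℝ, 0 ≤ C ∧ ∀ (w : HeightOneSpectrum (𝓞 K) → ℝ), (∀ v, |w v| ≤ 1) → ∀ (i Z : ℕ) (H : J → ℕ), 2 ≤ Z → 2 ^ i ≤ Z →
    (∀ j, Z ^ 4 ≤ H j) → av (box ι H) (fun c => (∑ v ∈ blk K i, XX 𝓓 w v (rd v (tuple ω c))) ^ 2) ≤ C / (rho ^ i) ^ 2 := by
  classical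
  obtain ⟨T, hT, hcard⟩ := card_blk K
  obtain ⟨A, hA⟩ : ∃ A, A = AA 𝓓 := ⟨_, rfl⟩
  have hA0 : 0 ≤ A := by rw [hA]; exact AA_nonneg 𝓓
  obtain ⟨b, hb⟩ : ∃ b : ℝ, b = 𝓓.B_fin.toFinset.card := ⟨_, rfl⟩
  have hb0 : 0 ≤ b := by rw [hb]; positivity
  obtain ⟨κ, hκ⟩ : ∃ κ : ℝ, κ = 2 ^ Fintype.card (J × ι) := ⟨_, rfl⟩
  have hκ0 : 0 ≤ κ := by rw [hκ]; positivity
  have hC0 := 𝓓.C_nonneg
  refine ⟨T * A ^ 2 + (T * 𝓓.C + b * A) ^ 2 + 2 * κ * (T * A) ^ 2, by positivity, fun w hw i Z H hZ hi hH => ?_⟩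
  obtain ⟨x, hx⟩ : ∃ x : ℝ, x = rho ^ i := ⟨_, rfl⟩
  have hx1 : 1 ≤ x := by rw [hx]; exact one_le_pow₀ one_lt_rho.le
  have hx0 : 0 < x := by linarith
  have hpow : ∀ k : ℕ, rho ^ (k * i) = x ^ k := fun k => by rw [hx, mul_comm, pow_mul]
  have h1 := second 𝓓 hw ω (blk K i) H (Z ^ 4) (2 * Z) hH (fun v hv => by
      have h2 := mem_SZ.1 (Finset.mem_filter.1 hv).1
      rw [pow_succ] at h2
      omega) (by nlinarith [Nat.mul_le_mul hZ hZ, Nat.mul_le_mul (Nat.mul_le_mul hZ hZ) (Nat.le_refl (Z * Z))])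
  rw [← hA] at h1
  have hnv : ∀ v ∈ blk K i, x ^ 4 ≤ nv v := fun v hv => by rw [← hpow]; exact nv_blk hv
  have hdiv : ∀ v ∈ blk K i, A / nv v ≤ A / x ^ 4 := fun v hv => div_le_div_of_nonneg_left hA0 (by positivity) (hnv v hv)
  have hc := hcard i
  rw [hpow] at hc
  -- the three terms
  have t1 : ∑ v ∈ blk K i, (A / nv v) ^ 2 ≤ T * A ^ 2 / x ^ 2 := by
    calc _ ≤ ∑ _v ∈ blk K i, (A / x ^ 4) ^ 2 := Finset.sum_le_sum fun v hv =>
          pow_le_pow_left₀ (div_nonneg hA0 (nv_pos v).le) (hdiv v hv) 2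
      _ = (blk K i).card * (A / x ^ 4) ^ 2 := by rw [Finset.sum_const, nsmul_eq_mul]
      _ ≤ T * x ^ 5 * (A / x ^ 4) ^ 2 := mul_le_mul_of_nonneg_right hc (by positivity)
      _ = T * A ^ 2 / x ^ 3 := by field_simp
      _ ≤ T * A ^ 2 / x ^ 2 := div_le_div_of_nonneg_left (by positivity) (by positivity) (pow_le_pow_right₀ hx1 (by norm_num))
  have t2 : ∑ v ∈ blk K i, |mX 𝓓 w v| ≤ (T * 𝓓.C + b * A) / x := by
    have h2 : ∀ v ∈ blk K i, |mX 𝓓 w v| ≤ 𝓓.C / x ^ 6 + if v ∈ 𝓓.B_fin.toFinset then A / x ^ 4 else 0 := by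
      intro v hv
      split_ifs with hB
      · have h3 := mX_le' 𝓓 hw v
        rw [← hA] at h3
        have h4 := hdiv v hv
        have h5 : 0 ≤ 𝓓.C / x ^ 6 := by positivity
        linarith
      · have h3 := mX_le 𝓓 hw (v := v) (fun h => hB (𝓓.B_fin.mem_toFinset.2 h))
        rw [add_zero]
        refine h3.trans (div_le_div_of_nonneg_left hC0 (by positivity) ?_)
        have h4 : x ^ 2 ≤ Real.sqrt (nv v) := by
          rw [Real.le_sqrt' (by positivity)]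
          calc (x ^ 2) ^ 2 = x ^ 4 := by ring
            _ ≤ _ := hnv v hv
        calc x ^ 6 = x ^ 4 * x ^ 2 := by ring
          _ ≤ _ := mul_le_mul (hnv v hv) h4 (by positivity) (nv_pos v).le
    refine (Finset.sum_le_sum h2).trans ?_
    rw [Finset.sum_add_distrib, Finset.sum_const, nsmul_eq_mul, ← Finset.sum_filter, Finset.sum_const, nsmul_eq_mul]
    have h3 : ((((blk K i).filter fun v => v ∈ 𝓓.B_fin.toFinset).card : ℕ) : ℝ) ≤ b := by
      rw [hb]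
      exact_mod_cast Finset.card_le_card fun v hv => (Finset.mem_filter.1 hv).2
    calc _ ≤ T * x ^ 5 * (𝓓.C / x ^ 6) + b * (A / x ^ 4) :=
          add_le_add (mul_le_mul_of_nonneg_right hc (by positivity)) (mul_le_mul_of_nonneg_right h3 (by positivity))
      _ = T * 𝓓.C / x + b * A / x ^ 4 := by
          have e5 : x ^ 5 * (𝓓.C / x ^ 6) = 𝓓.C / x := by field_simp
          rw [mul_assoc, e5]
          ring
      _ ≤ T * 𝓓.C / x + b * A / x := by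
          have : b * A / x ^ 4 ≤ b * A / x := div_le_div_of_nonneg_left (by positivity) hx0 (by
            calc x = x ^ 1 := (pow_one x).symm
              _ ≤ x ^ 4 := pow_le_pow_right₀ hx1 (by norm_num))
          linarith
      _ = _ := by ring
  have t3 : ∑ v ∈ blk K i, A / nv v ≤ T * A * x := by
    calc _ ≤ ∑ _v ∈ blk K i, A / x ^ 4 := Finset.sum_le_sum hdiv
      _ = (blk K i).card * (A / x ^ 4) := by rw [Finset.sum_const, nsmul_eq_mul]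
      _ ≤ T * x ^ 5 * (A / x ^ 4) := mul_le_mul_of_nonneg_right hc (by positivity)
      _ = _ := by field_simp
  have hZx : x ^ 4 ≤ Z := by
    rw [← hpow, pow_mul, rho_four]
    exact_mod_cast hi
  have hZ0 : (0 : ℝ) < Z := by positivity
  have t4 : ((((2 * Z) * (2 * Z) : ℕ) : ℝ) / (2 * ((Z ^ 4 : ℕ) : ℝ) + 1)) ≤ 2 / x ^ 8 := by
    rw [div_le_div_iff₀ (by positivity) (by positivity)]
    push_cast
    have h2 : x ^ 8 ≤ (Z : ℝ) ^ 2 := by
      calc x ^ 8 = (x ^ 4) ^ 2 := by ring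
        _ ≤ _ := pow_le_pow_left₀ (by positivity) hZx 2
    have h3 : (2 * (Z : ℝ) * (2 * Z)) * x ^ 8 ≤ (2 * (Z : ℝ) * (2 * Z)) * (Z : ℝ) ^ 2 := mul_le_mul_of_nonneg_left h2 (by positivity)
    nlinarith
  have hs1 : 0 ≤ ∑ v ∈ blk K i, |mX 𝓓 w v| := Finset.sum_nonneg fun v _ => abs_nonneg _
  have hs2 : 0 ≤ ∑ v ∈ blk K i, A / nv v := Finset.sum_nonneg fun v _ => div_nonneg hA0 (nv_pos v).le
  have u2 : (∑ v ∈ blk K i, |mX 𝓓 w v|) ^ 2 ≤ (T * 𝓓.C + b * A) ^ 2 / x ^ 2 := by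
    rw [← div_pow]
    exact pow_le_pow_left₀ hs1 t2 2
  have u3 : 2 ^ Fintype.card (J × ι) * ((((2 * Z) * (2 * Z) : ℕ) : ℝ) / (2 * ((Z ^ 4 : ℕ) : ℝ) + 1)) * (∑ v ∈ blk K i, A / nv v) ^ 2 ≤
      2 * κ * (T * A) ^ 2 / x ^ 2 := by
    rw [← hκ]
    calc _ ≤ κ * (2 / x ^ 8) * (T * A * x) ^ 2 :=
          mul_le_mul (mul_le_mul_of_nonneg_left t4 hκ0) (pow_le_pow_left₀ hs2 t3 2) (by positivity) (by positivity)
      _ = 2 * κ * (T * A) ^ 2 / x ^ 6 := by field_simp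
      _ ≤ _ := div_le_div_of_nonneg_left (by positivity) (by positivity) (pow_le_pow_right₀ hx1 (by norm_num))
  rw [← hx]
  refine h1.trans ?_
  rw [add_div, add_div]
  exact add_le_add (add_le_add t1 u2) u3

theorem blk_first : ∃ C : ℝ, 0 ≤ C ∧ ∀ (w : HeightOneSpectrum (𝓞 K) → ℝ), (∀ v, |w v| ≤ 1) → ∀ (i Z : ℕ) (H : J → ℕ), 2 ≤ Z → 2 ^ i ≤ Z →
    (∀ j, Z ^ 4 ≤ H j) → av (box ι H) (fun c => |∑ v ∈ blk K i, XX 𝓓 w v (rd v (tuple ω c))|) ≤ C * (rho⁻¹) ^ i := by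
  obtain ⟨C, hC, h⟩ := blk_second 𝓓 ω
  refine ⟨(C + 1) / 2, by positivity, fun w hw i Z H hZ hi hH => ?_⟩
  have h1 := h w hw i Z H hZ hi hH
  obtain ⟨x, hx⟩ : ∃ x : ℝ, x = rho ^ i := ⟨_, rfl⟩
  have hx0 : 0 < x := by rw [hx]; exact pow_pos rho_pos _
  rw [← hx] at h1
  have hbox : (0 : ℝ) < (box ι H).card := by exact_mod_cast card_box_pos H
  have h2 : ∀ y : ℝ, |y| ≤ x / 2 * y ^ 2 + 1 / (2 * x) := by
    intro y
    have h3 : 0 ≤ (x * |y| - 1) ^ 2 / (2 * x) := by positivity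
    have h4 : (x * |y| - 1) ^ 2 / (2 * x) = x / 2 * y ^ 2 + 1 / (2 * x) - |y| := by
      rw [← sq_abs y]
      field_simp
      ring
    linarith
  refine (av_mono _ fun c => h2 _).trans ?_
  rw [av_add, av_mul]
  have h5 : av (box ι H) (fun _ => 1 / (2 * x)) = 1 / (2 * x) := by
    unfold av
    rw [Finset.sum_const, nsmul_eq_mul]
    field_simp
  rw [h5, inv_pow, ← hx]
  calc _ ≤ x / 2 * (C / x ^ 2) + 1 / (2 * x) := by
        have := mul_le_mul_of_nonneg_left h1 (by positivity : 0 ≤ x / 2)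
        linarith
    _ = (C + 1) / 2 * x⁻¹ := by field_simp

theorem total : ∃ C : ℝ, 0 ≤ C ∧ ∀ (w : HeightOneSpectrum (𝓞 K) → ℝ), (∀ v, |w v| ≤ 1) → ∀ (Z : ℕ) (H : J → ℕ), 2 ≤ Z →
    (∀ j, Z ^ 4 ≤ H j) →
    av (box ι H) (fun c => ∑ i ∈ Finset.range (Nat.log 2 Z + 1), |∑ v ∈ blk K i, XX 𝓓 w v (rd v (tuple ω c))|) ≤ C := by
  obtain ⟨C, hC, h⟩ := blk_first 𝓓 ω
  have hr1 : rho⁻¹ < 1 := inv_lt_one_of_one_lt₀ one_lt_rho
  have hr0 : 0 ≤ rho⁻¹ := inv_nonneg.2 rho_pos.le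
  refine ⟨C * (1 - rho⁻¹)⁻¹, mul_nonneg hC (inv_nonneg.2 (by linarith)), fun w hw Z H hZ hH => ?_⟩
  rw [av_sum]
  refine (Finset.sum_le_sum (g := fun i => C * (rho⁻¹) ^ i) fun i hi => h w hw i Z H hZ ?_ hH).trans ?_
  · have h1 : i ≤ Nat.log 2 Z := by have := Finset.mem_range.1 hi; omega
    exact (Nat.pow_le_pow_right (by norm_num) h1).trans (Nat.pow_log_le_self 2 (by omega))
  · rw [← Finset.mul_sum]
    refine mul_le_mul_of_nonneg_left ?_ hC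
    rw [← tsum_geometric_of_lt_one hr0 hr1]
    exact (summable_geometric_of_lt_one hr0 hr1).sum_le_tsum _ fun i _ => pow_nonneg hr0 i

/-! ### from the blocks to all sums -/

theorem SZ_one : SZ K 1 = ∅ := by
  rw [Finset.eq_empty_iff_forall_notMem]
  intro v hv
  have h1 := mem_SZ.1 hv
  have h2 := two_le_nv v
  omega

theorem SZ_pow (f : HeightOneSpectrum (𝓞 K) → ℝ) (j : ℕ) : ∑ v ∈ SZ K (2 ^ j), f v = ∑ i ∈ Finset.range j, ∑ v ∈ blk K i, f v := by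
  induction j with
  | zero => rw [pow_zero, SZ_one]; simp
  | succ j ih =>
    rw [Finset.sum_range_succ, ← ih, ← Finset.sum_filter_add_sum_filter_not (SZ K (2 ^ (j + 1))) (fun v => 2 ^ j < nv v), add_comm]
    congr 1
    refine Finset.sum_congr ?_ fun _ _ => rfl
    ext v
    rw [Finset.mem_filter, mem_SZ, mem_SZ, not_lt]
    constructor
    · exact fun h => h.2
    · intro h
      exact ⟨h.trans (Nat.pow_le_pow_right (by norm_num) (by omega)), h⟩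

theorem inv_le_cv (v : HeightOneSpectrum (𝓞 K)) : 1 / (nv v : ℝ) ≤ cv v := by
  obtain ⟨h1, h2⟩ := inv_nv_le v
  unfold Run7.h9.BS.cv
  have := Real.log_le_sub_one_of_pos (show (0 : ℝ) < 1 - 1 / (nv v : ℝ) by linarith)
  linarith

variable (K) in
theorem blk_inv : ∃ C : ℝ, 0 ≤ C ∧ ∀ j : ℕ, ∑ v ∈ blk K j, 1 / (nv v : ℝ) ≤ C := by
  obtain ⟨C, hC0, hC⟩ := VZ_mert K
  refine ⟨2 * C + 1 + (SZ K 4).card, by positivity, fun j => ?_⟩
  by_cases hj : 2 ≤ j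
  · have h1 : ∑ v ∈ blk K j, 1 / (nv v : ℝ) ≤ ∑ v ∈ blk K j, cv v := Finset.sum_le_sum fun v _ => inv_le_cv v
    have h2 : VZ K (2 ^ (j + 1)) = VZ K (2 ^ j) + ∑ v ∈ blk K j, cv v := by
      have e1 := SZ_pow (K := K) cv (j + 1)
      have e2 := SZ_pow (K := K) cv j
      unfold Run7.h9.BS.VZ
      rw [e1, e2, Finset.sum_range_succ]
    have h3 : 3 ≤ 2 ^ j := by
      calc 3 ≤ 2 ^ 2 := by norm_num
        _ ≤ 2 ^ j := Nat.pow_le_pow_right (by norm_num) hj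
    have h4 := abs_le.1 (hC (2 ^ j) h3)
    have h5 := abs_le.1 (hC (2 ^ (j + 1)) (h3.trans (Nat.pow_le_pow_right (by norm_num) (by omega))))
    have h6 : LL (2 ^ (j + 1)) - LL (2 ^ j) ≤ 1 := by
      unfold Run7.h9.TW.LL
      have hl2 := Real.log_pos (show (1 : ℝ) < 2 by norm_num)
      have hj0 : (0 : ℝ) < j := by exact_mod_cast (by omega : 0 < j)
      push_cast
      rw [Real.log_pow, Real.log_pow, Real.log_mul (by positivity) hl2.ne', Real.log_mul hj0.ne' hl2.ne']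
      have h7 : Real.log ((j + 1 : ℕ) : ℝ) - Real.log j = Real.log (((j + 1 : ℕ) : ℝ) / j) := by
        rw [Real.log_div (by positivity) hj0.ne']
      have h8 := Real.log_le_sub_one_of_pos (show (0 : ℝ) < ((j + 1 : ℕ) : ℝ) / j by positivity)
      have h9 : ((j + 1 : ℕ) : ℝ) / j - 1 ≤ 1 := by
        rw [sub_le_iff_le_add, div_le_iff₀ hj0]
        push_cast
        have : (1 : ℝ) ≤ j := by exact_mod_cast (by omega : 1 ≤ j)
        linarith
      push_cast at h7 h8 h9 ⊢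
      linarith
    have h10 : (0 : ℝ) ≤ (SZ K 4).card := Nat.cast_nonneg _
    linarith [h4.1, h5.2]
  · have h1 : ∑ v ∈ blk K j, 1 / (nv v : ℝ) ≤ ((blk K j).card : ℝ) := by
      rw [← nsmul_one, ← Finset.sum_const]
      refine Finset.sum_le_sum fun v _ => ?_
      have := (inv_nv_le v).2
      linarith
    have h2 : blk K j ⊆ SZ K 4 := by
      intro v hv
      have h3 := mem_SZ.1 (Finset.mem_filter.1 hv).1
      rw [mem_SZ]
      refine h3.trans ?_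
      calc 2 ^ (j + 1) ≤ 2 ^ 2 := Nat.pow_le_pow_right (by norm_num) (by omega)
        _ = 4 := by norm_num
    have h3 : ((blk K j).card : ℝ) ≤ (SZ K 4).card := by exact_mod_cast Finset.card_le_card h2
    linarith

/-- the deviation of the sum up to `x` -/
noncomputable def DV (w : HeightOneSpectrum (𝓞 K) → ℝ) (x : ℕ) (t : J → 𝓞 K) : ℝ := ∑ v ∈ SZ K x, XX 𝓓 w v (rd v t)

theorem all_x : ∃ C : ℝ, 0 ≤ C ∧ ∀ (w : HeightOneSpectrum (𝓞 K) → ℝ), (∀ v, |w v| ≤ 1) → ∀ (Z : ℕ) (t : J → 𝓞 K) (x : ℕ), x ≤ Z →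
    |DV 𝓓 w x t| ≤ ∑ i ∈ Finset.range (Nat.log 2 Z + 1), |∑ v ∈ blk K i, XX 𝓓 w v (rd v t)| + C := by
  obtain ⟨C, hC, h⟩ := blk_inv K
  have hA0 := AA_nonneg 𝓓
  refine ⟨AA 𝓓 * C, mul_nonneg hA0 hC, fun w hw Z t x hx => ?_⟩
  rcases Nat.eq_zero_or_pos x with h0 | h0
  · have e : DV 𝓓 w x t = 0 := by
      unfold DV
      have : SZ K x = ∅ := by
        rw [Finset.eq_empty_iff_forall_notMem]
        intro v hv
        have h1 := mem_SZ.1 hv
        have h2 := two_le_nv v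
        omega
      rw [this, Finset.sum_empty]
    rw [e, abs_zero]
    exact add_nonneg (Finset.sum_nonneg fun _ _ => abs_nonneg _) (mul_nonneg hA0 hC)
  · obtain ⟨j, hj⟩ : ∃ j, j = Nat.log 2 x := ⟨_, rfl⟩
    have h1 : 2 ^ j ≤ x := by rw [hj]; exact Nat.pow_log_le_self 2 (by omega)
    have h2 : x < 2 ^ (j + 1) := by rw [hj]; exact Nat.lt_pow_succ_log_self (by norm_num) x
    have h3 : DV 𝓓 w x t = ∑ i ∈ Finset.range j, ∑ v ∈ blk K i, XX 𝓓 w v (rd v t) +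
        ∑ v ∈ (SZ K x).filter (fun v => 2 ^ j < nv v), XX 𝓓 w v (rd v t) := by
      unfold DV
      rw [← SZ_pow (K := K) (fun v => XX 𝓓 w v (rd v t)) j, ← Finset.sum_filter_add_sum_filter_not (SZ K x) (fun v => 2 ^ j < nv v), add_comm]
      congr 1
      refine Finset.sum_congr ?_ fun _ _ => rfl
      ext v
      rw [Finset.mem_filter, mem_SZ, mem_SZ, not_lt]
      exact ⟨fun h => h.2, fun h => ⟨h.trans h1, h⟩⟩
    rw [h3]
    refine (abs_add_le _ _).trans (add_le_add ?_ ?_)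
    · refine (Finset.abs_sum_le_sum_abs _ _).trans ?_
      refine Finset.sum_le_sum_of_subset_of_nonneg (Finset.range_mono ?_) fun _ _ _ => abs_nonneg _
      have : j ≤ Nat.log 2 Z := by rw [hj]; exact Nat.log_mono_right hx
      omega
    · refine (Finset.abs_sum_le_sum_abs _ _).trans ?_
      refine (Finset.sum_le_sum fun v _ => XX_le 𝓓 hw v _).trans ?_
      refine (Finset.sum_le_sum_of_subset_of_nonneg (t := blk K j) ?_ fun v _ _ => div_nonneg hA0 (nv_pos v).le).trans ?_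
      · intro v hv
        rw [Finset.mem_filter, mem_SZ] at hv
        exact Finset.mem_filter.2 ⟨mem_SZ.2 (hv.1.trans h2.le), hv.2⟩
      · have e : ∑ v ∈ blk K j, AA 𝓓 / (nv v : ℝ) = AA 𝓓 * ∑ v ∈ blk K j, 1 / (nv v : ℝ) := by
          rw [Finset.mul_sum]
          exact Finset.sum_congr rfl fun v _ => by ring
        rw [e]
        exact mul_le_mul_of_nonneg_left (h j) hA0

open Classical in
/-- **All partial sums for almost all members.** -/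
theorem sup_small {G : Set (J → 𝓞 K)} {Cb : ℝ} (hG : Thin ω G Cb) : ∃ (C : ℝ) (Z₀ : ℕ), 0 ≤ C ∧ ∀ Z : ℕ, Z₀ ≤ Z →
    ∀ H : J → ℕ, (∀ j, Z ^ 4 ≤ H j) → ∀ (w : HeightOneSpectrum (𝓞 K) → ℝ), (∀ v, |w v| ≤ 1) → ∀ ε : ℝ, 0 < ε → ε ≤ 1 →
      prop ω H G (fun t => ¬ ∀ x : ℕ, x ≤ Z → |DV 𝓓 w x t| ≤ C / ε) ≤ ε := by
  obtain ⟨C₁, hC₁, h1⟩ := total 𝓓 ω
  obtain ⟨C₂, hC₂, h2⟩ := all_x 𝓓
  obtain ⟨N, hN⟩ := exists_nat_ge Cb
  refine ⟨2 * (C₁ + 1) + C₂, max 2 N, by positivity, fun Z hZ H hH w hw ε hε hε1 => ?_⟩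
  obtain ⟨l, hl⟩ : ∃ l : ℝ, l = 2 * (C₁ + 1) / ε := ⟨_, rfl⟩
  have hl0 : 0 < l := by rw [hl]; positivity
  have hlC : l + C₂ ≤ (2 * (C₁ + 1) + C₂) / ε := by
    rw [hl, add_div]
    have : C₂ ≤ C₂ / ε := by
      rw [le_div_iff₀ hε]
      exact mul_le_of_le_one_right hC₂ hε1
    linarith
  have hZ2 : 2 ≤ Z := (le_max_left _ _).trans hZ
  have hZN : N ≤ Z := (le_max_right _ _).trans hZ
  have hM : 2 * Cb ≤ 2 * ((Z ^ 4 : ℕ) : ℝ) + 1 := by
    have h3 : Z ≤ Z ^ 4 := Nat.le_self_pow (by norm_num) Z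
    have h4 : (N : ℝ) ≤ ((Z ^ 4 : ℕ) : ℝ) := by exact_mod_cast hZN.trans h3
    linarith
  refine (prop_le ω hG H (Z ^ 4) hH hM _
    (fun c => ∑ i ∈ Finset.range (Nat.log 2 Z + 1), |∑ v ∈ blk K i, XX 𝓓 w v (rd v (tuple ω c))|)
    (fun c => Finset.sum_nonneg fun _ _ => abs_nonneg _) hl0 (fun c hc => ?_)).trans ?_
  · by_contra hlt
    push Not at hlt
    exact hc fun x hx => (h2 w hw Z (tuple ω c) x hx).trans (by linarith)
  · have h3 := h1 w hw Z H hZ2 hH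
    calc _ ≤ 2 * ((C₁ + 1) / l) := by
          refine mul_le_mul_of_nonneg_left (div_le_div_of_nonneg_right (h3.trans (by linarith)) hl0.le) (by norm_num)
      _ = ε := by
          rw [hl]
          have : C₁ + 1 ≠ 0 := by positivity
          field_simp

end

end Run7.h61.SO
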