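import Pool.Agent.Run7.h61.TW.Main
import Pool.Agent.Run7.h876.PW.Tail
import Pool.Agent.Run7.h9.TW.Mert

/-!
# The second moment of sums over the places
-/

set_option autoImplicit false
set_option linter.unusedSectionVars false

namespace Run7.h61.SO

open NumberField IsDedekindDomain Finset Filter Topology
open Run7.h876.MM (nv kv two_le_nv nv_pos avg instFieldKv instFintypeKv instDecKv SZ mem_SZ card_SZ)
open Run7.h876.EN Run7.h876.PW
open Run7.h61.TW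
open Run7.h9.BS (VZ cv cv_pos prop)

section
variable {K : Type} [Field K] [NumberField K] {J : Type} [Fintype J] [DecidableEq J] (𝓓 : TD K J)

/-- the variable at one place -/
noncomputable def XX (w : HeightOneSpectrum (𝓞 K) → ℝ) (v : HeightOneSpectrum (𝓞 K)) (u : J → kv v) : ℝ :=
  w v * ((𝓓.a v u 0) ^ 2 / nv v - 1) / nv v

/-- the bound -/
noncomputable def AA : ℝ := 𝓓.D ^ 2 + 1

theorem AA_nonneg : 0 ≤ AA 𝓓 := by unfold AA; positivity

variable {w : HeightOneSpectrum (𝓞 K) → ℝ} (hw : ∀ v, |w v| ≤ 1)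

include hw in
theorem XX_le (v : HeightOneSpectrum (𝓞 K)) (u : J → kv v) : |XX 𝓓 w v u| ≤ AA 𝓓 / nv v := by
  have hn := nv_pos v
  unfold XX AA
  rw [abs_div, abs_of_pos hn, abs_mul]
  refine div_le_div_of_nonneg_right ?_ hn.le
  have h1 : (𝓓.a v u 0) ^ 2 ≤ 𝓓.D ^ 2 * nv v := by
    have h := 𝓓.bound v u 0
    rw [zero_add, pow_one] at h
    rw [← sq_abs]
    calc |𝓓.a v u 0| ^ 2 ≤ (𝓓.D * Real.sqrt (nv v)) ^ 2 := pow_le_pow_left₀ (abs_nonneg _) h 2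
      _ = 𝓓.D ^ 2 * nv v := by rw [mul_pow, Real.sq_sqrt hn.le]
  have h2 : (𝓓.a v u 0) ^ 2 / nv v ≤ 𝓓.D ^ 2 := by rwa [div_le_iff₀ hn]
  have h3 : 0 ≤ (𝓓.a v u 0) ^ 2 / nv v := by positivity
  have h4 : |(𝓓.a v u 0) ^ 2 / nv v - 1| ≤ 𝓓.D ^ 2 + 1 := by
    rw [abs_le]
    have := sq_nonneg 𝓓.D
    constructor <;> linarith
  calc |w v| * |(𝓓.a v u 0) ^ 2 / nv v - 1| ≤ 1 * (𝓓.D ^ 2 + 1) := mul_le_mul (hw v) h4 (abs_nonneg _) zero_le_one
    _ = _ := one_mul _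

/-- the mean at one place -/
noncomputable def mX (w : HeightOneSpectrum (𝓞 K) → ℝ) (v : HeightOneSpectrum (𝓞 K)) : ℝ := av Finset.univ (XX 𝓓 w v)

include hw in
theorem mX_le' (v : HeightOneSpectrum (𝓞 K)) : |mX 𝓓 w v| ≤ AA 𝓓 / nv v := by
  unfold mX av
  have hA : 0 ≤ AA 𝓓 / nv v := div_nonneg (AA_nonneg 𝓓) (nv_pos v).le
  rw [abs_div, Nat.abs_cast]
  refine div_le_of_le_mul₀ (Nat.cast_nonneg _) hA ?_
  refine (Finset.abs_sum_le_sum_abs _ _).trans ?_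
  refine (Finset.sum_le_sum fun u _ => XX_le 𝓓 hw v u).trans ?_
  rw [Finset.sum_const, nsmul_eq_mul, mul_comm]

include hw in
theorem mX_le {v : HeightOneSpectrum (𝓞 K)} (hv : v ∉ 𝓓.B) : |mX 𝓓 w v| ≤ 𝓓.C / (nv v * Real.sqrt (nv v)) := by
  have hn := nv_pos v
  have hs := Real.sqrt_pos.2 hn
  have hss : Real.sqrt (nv v) * Real.sqrt (nv v) = nv v := Real.mul_self_sqrt hn.le
  have hc : (0 : ℝ) < Fintype.card (J → kv v) := by exact_mod_cast Fintype.card_pos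
  have h := 𝓓.m2 v hv
  have e : mX 𝓓 w v = w v * ((∑ t, (𝓓.a v t 0) ^ 2) / (Fintype.card (J → kv v) : ℝ) - nv v) / (nv v * nv v) := by
    unfold mX av XX
    rw [Finset.card_univ]
    have e1 : ∀ u : J → kv v, w v * ((𝓓.a v u 0) ^ 2 / nv v - 1) / nv v = w v / (nv v * nv v) * (𝓓.a v u 0) ^ 2 - w v / nv v := by
      intro u
      field_simp
    rw [Finset.sum_congr rfl fun u _ => e1 u, Finset.sum_sub_distrib, ← Finset.mul_sum, Finset.sum_const, Finset.card_univ, nsmul_eq_mul]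
    field_simp
  rw [e, abs_div, abs_mul, abs_of_pos (mul_pos hn hn)]
  rw [div_le_div_iff₀ (mul_pos hn hn) (mul_pos hn hs)]
  have h2 : |w v| * |(∑ t, (𝓓.a v t 0) ^ 2) / (Fintype.card (J → kv v) : ℝ) - nv v| ≤ 𝓓.C * Real.sqrt (nv v) := by
    calc _ ≤ 1 * (𝓓.C * Real.sqrt (nv v)) := mul_le_mul (hw v) h (abs_nonneg _) zero_le_one
      _ = _ := one_mul _
  calc _ ≤ 𝓓.C * Real.sqrt (nv v) * (nv v * Real.sqrt (nv v)) := mul_le_mul_of_nonneg_right h2 (by positivity)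
    _ = 𝓓.C * (nv v * (Real.sqrt (nv v) * Real.sqrt (nv v))) := by ring
    _ = _ := by rw [hss]

variable {ι : Type} [Fintype ι] [DecidableEq ι] (ω : Module.Basis ι ℤ (𝓞 K))

include hw in
theorem cov {v v' : HeightOneSpectrum (𝓞 K)} (hne : v ≠ v') (H : J → ℕ) (M : ℕ) (hH : ∀ j, M ≤ H j) (hN : nv v * nv v' ≤ 2 * M + 1) :
    |av (box ι H) (fun c => XX 𝓓 w v (rd v (tuple ω c)) * XX 𝓓 w v' (rd v' (tuple ω c))) - mX 𝓓 w v * mX 𝓓 w v'| ≤
      2 ^ Fintype.card (J × ι) * (((nv v * nv v' : ℕ) : ℝ) / (2 * M + 1)) * ((AA 𝓓 / nv v) * (AA 𝓓 / nv v')) := by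
  classical
  have h := Run7.h876.EN.core ω {v, v'} M H hH (by rw [Finset.prod_pair hne]; exact hN)
    (fun t => ((XX 𝓓 w v (rd v t) * XX 𝓓 w v' (rd v' t) : ℝ) : ℂ)) 0 (fun v u => ((XX 𝓓 w v u : ℝ) : ℂ)) (fun t => by
      rw [Finset.prod_pair hne]
      push_cast
      rw [sub_self, norm_zero]) (fun v => AA 𝓓 / nv v) (fun v _ u => by
      rw [Complex.norm_real, Real.norm_eq_abs]
      exact XX_le 𝓓 hw v u)
  rw [Finset.prod_pair hne, Finset.prod_pair hne, Finset.prod_pair hne, avg_av, avg_av, avg_av, zero_add] at h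
  rw [← Complex.ofReal_mul, ← Complex.ofReal_sub, Complex.norm_real, Real.norm_eq_abs] at h
  exact h

include hw in
/-- **The second moment.** -/
theorem second (F : Finset (HeightOneSpectrum (𝓞 K))) (H : J → ℕ) (M Y : ℕ) (hH : ∀ j, M ≤ H j) (hF : ∀ v ∈ F, nv v ≤ Y)
    (hY : Y * Y ≤ 2 * M + 1) :
    av (box ι H) (fun c => (∑ v ∈ F, XX 𝓓 w v (rd v (tuple ω c))) ^ 2) ≤
      ∑ v ∈ F, (AA 𝓓 / nv v) ^ 2 + (∑ v ∈ F, |mX 𝓓 w v|) ^ 2 +
        2 ^ Fintype.card (J × ι) * (((Y * Y : ℕ) : ℝ) / (2 * M + 1)) * (∑ v ∈ F, AA 𝓓 / nv v) ^ 2 := by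
  classical
  have hA0 : ∀ v : HeightOneSpectrum (𝓞 K), 0 ≤ AA 𝓓 / nv v := fun v => div_nonneg (AA_nonneg 𝓓) (nv_pos v).le
  have hbox : (0 : ℝ) < (box ι H).card := by exact_mod_cast card_box_pos H
  obtain ⟨E, hE⟩ : ∃ E : ℝ, E = 2 ^ Fintype.card (J × ι) * (((Y * Y : ℕ) : ℝ) / (2 * M + 1)) := ⟨_, rfl⟩
  have hE0 : 0 ≤ E := by rw [hE]; positivity
  have key : ∀ v ∈ F, ∀ v' ∈ F, av (box ι H) (fun c => XX 𝓓 w v (rd v (tuple ω c)) * XX 𝓓 w v' (rd v' (tuple ω c))) ≤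
      (if v = v' then (AA 𝓓 / nv v) ^ 2 else 0) + |mX 𝓓 w v| * |mX 𝓓 w v'| + E * ((AA 𝓓 / nv v) * (AA 𝓓 / nv v')) := by
    intro v hv v' hv'
    have h0 : 0 ≤ |mX 𝓓 w v| * |mX 𝓓 w v'| := mul_nonneg (abs_nonneg _) (abs_nonneg _)
    have h1 : 0 ≤ E * ((AA 𝓓 / nv v) * (AA 𝓓 / nv v')) := mul_nonneg hE0 (mul_nonneg (hA0 v) (hA0 v'))
    split_ifs with h
    · subst h
      have h2 : av (box ι H) (fun c => XX 𝓓 w v (rd v (tuple ω c)) * XX 𝓓 w v (rd v (tuple ω c))) ≤ (AA 𝓓 / nv v) ^ 2 := by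
        unfold av
        rw [div_le_iff₀ hbox]
        refine (Finset.sum_le_sum (g := fun _ => (AA 𝓓 / nv v) ^ 2) fun c _ => ?_).trans (le_of_eq ?_)
        · rw [← sq, ← sq_abs]
          exact pow_le_pow_left₀ (abs_nonneg _) (XX_le 𝓓 hw v _) 2
        · rw [Finset.sum_const, nsmul_eq_mul, mul_comm]
      linarith
    · have h2 := cov 𝓓 hw ω h H M hH ((Nat.mul_le_mul (hF v hv) (hF v' hv')).trans hY)
      have h3 : (2 : ℝ) ^ Fintype.card (J × ι) * (((nv v * nv v' : ℕ) : ℝ) / (2 * M + 1)) * ((AA 𝓓 / nv v) * (AA 𝓓 / nv v')) ≤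
          E * ((AA 𝓓 / nv v) * (AA 𝓓 / nv v')) := by
        refine mul_le_mul_of_nonneg_right ?_ (mul_nonneg (hA0 v) (hA0 v'))
        rw [hE]
        refine mul_le_mul_of_nonneg_left ?_ (by positivity)
        refine div_le_div_of_nonneg_right ?_ (by positivity)
        exact_mod_cast Nat.mul_le_mul (hF v hv) (hF v' hv')
      have h4 := (abs_le.1 (h2.trans h3)).2
      have h5 : mX 𝓓 w v * mX 𝓓 w v' ≤ |mX 𝓓 w v| * |mX 𝓓 w v'| := by
        rw [← abs_mul]; exact le_abs_self _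
      linarith
  have e1 : ∀ c : J × ι → ℤ, (∑ v ∈ F, XX 𝓓 w v (rd v (tuple ω c))) ^ 2 =
      ∑ v ∈ F, ∑ v' ∈ F, XX 𝓓 w v (rd v (tuple ω c)) * XX 𝓓 w v' (rd v' (tuple ω c)) := by
    intro c
    rw [sq, Finset.sum_mul_sum]
  simp only [e1]
  rw [av_sum]
  simp only [av_sum]
  refine (Finset.sum_le_sum fun v hv => Finset.sum_le_sum fun v' hv' => key v hv v' hv').trans (le_of_eq ?_)
  simp only [Finset.sum_add_distrib]
  congr 1
  · congr 1
    · refine Finset.sum_congr rfl fun v hv => ?_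
      rw [Finset.sum_ite_eq F v, if_pos hv]
    · rw [sq, Finset.sum_mul_sum]
  · rw [← hE, sq, Finset.sum_mul_sum, Finset.mul_sum]
    refine Finset.sum_congr rfl fun v _ => ?_
    rw [Finset.mul_sum]

/-! ### the dyadic blocks -/

variable (K) in
/-- the places with `2^i < Nv ≤ 2^(i+1)` -/
noncomputable def blk (i : ℕ) : Finset (HeightOneSpectrum (𝓞 K)) := (SZ K (2 ^ (i + 1))).filter fun v => 2 ^ i < nv v

/-- the fourth root of two -/
noncomputable def rho : ℝ := (2 : ℝ) ^ ((1 : ℝ) / 4)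

theorem rho_four : rho ^ 4 = 2 := by
  unfold rho
  rw [← Real.rpow_natCast, ← Real.rpow_mul (by norm_num)]
  norm_num

theorem rho_pos : 0 < rho := Real.rpow_pos_of_pos (by norm_num) _

theorem one_lt_rho : 1 < rho := Real.one_lt_rpow (by norm_num) (by norm_num)

variable (K) in
theorem card_blk : ∃ T : ℝ, 0 ≤ T ∧ ∀ i : ℕ, ((blk K i).card : ℝ) ≤ T * rho ^ (5 * i) := by
  obtain ⟨T, hT, h⟩ := card_SZ K (θ := 1 / 4) (by norm_num)
  refine ⟨T * rho ^ 5, mul_nonneg hT (pow_nonneg rho_pos.le _), fun i => ?_⟩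
  have h1 := h (2 ^ (i + 1)) (Nat.one_le_two_pow)
  have h2 : ((blk K i).card : ℝ) ≤ (SZ K (2 ^ (i + 1))).card := by
    exact_mod_cast Finset.card_le_card (Finset.filter_subset _ _)
  have e1 : ((2 ^ (i + 1) : ℕ) : ℝ) = rho ^ (4 * (i + 1)) := by
    push_cast
    rw [pow_mul, rho_four]
  have e2 : (rho ^ (4 * (i + 1)) : ℝ) ^ ((1 : ℝ) + 1 / 4) = rho ^ (5 * (i + 1)) := by
    rw [← Real.rpow_natCast, ← Real.rpow_mul rho_pos.le, ← Real.rpow_natCast]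
    congr 1
    push_cast
    ring
  rw [e1, e2] at h1
  refine (h2.trans h1).trans (le_of_eq ?_)
  rw [show 5 * (i + 1) = 5 + 5 * i by ring, pow_add]
  ring

theorem nv_blk {i : ℕ} {v : HeightOneSpectrum (𝓞 K)} (hv : v ∈ blk K i) : rho ^ (4 * i) ≤ nv v := by
  have h := (Finset.mem_filter.1 hv).2
  rw [pow_mul, rho_four]
  have h2 : ((2 ^ i : ℕ) : ℝ) ≤ nv v := by exact_mod_cast h.le
  push_cast at h2
  exact h2

end

end Run7.h61.SO
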